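import Pool.Agent.J6H62.MC.Sound

/-!
# The axioms `EX` are pseudo-true (MODULE 1c)
-/

set_option autoImplicit false

namespace Pool.Agent.J6H62.MC

open Pool.Agent.J6H58.MC
open Pool.Agent.TH672 (Fm num digits)
open Pool.Agent.TH636.BC (Fml St Ok Agr Eqs AddS MulS SuccS Vlt)
open Pool.Agent.TH197.J1545 (num_app num_snoc digits_zero digits_odd digits_even digits_num)

lemma agr_v {m x i : ℕ} {s t : St} (h : Agr m x s t) (hi : i < m) (hx : i ≠ x) : t.v i = s.v i :=
  (h.1 i hi hx).symm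

lemma succ_inl {t : St} {x y a : ℕ} (h : SuccS t x y) (hx : t.v x = .inl a) :
    t.v y = .inl (a + 1) := by
  unfold SuccS at h
  rw [hx] at h
  exact h

lemma succ_pred {t : St} {x y b : ℕ} (h : SuccS t x y) (hy : t.v y = .inl b) :
    ∃ a, t.v x = .inl a ∧ b = a + 1 := by
  unfold SuccS at h
  rcases hx : t.v x with a | a
  · rw [hx] at h
    have h' : t.v y = .inl (a + 1) := h
    rw [hy] at h'
    exact ⟨a, rfl, Sum.inl.inj h'⟩
  · rw [hx] at h
    have h' : Eqs t x y := h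
    have h1 := h'.1
    rw [hx, hy] at h1
    cases h1

lemma add_inl {t : St} {x y z a b : ℕ} (h : AddS t x y z) (hx : t.v x = .inl a)
    (hy : t.v y = .inl b) : t.v z = .inl (a + b) := by
  unfold AddS at h
  rw [hx, hy] at h
  exact h

lemma eqs_inl {m : ℕ} {t : St} (ht : Ok m t) {x y a : ℕ} (hx : x < m) (hy : y < m)
    (h1 : t.v x = .inl a) (h2 : t.v y = .inl a) : Eqs t x y :=
  ⟨h1.trans h2.symm, ht.norm x hx y hy (Or.inl (by rw [h1]; rfl))⟩

/-- the value after reading a digit -/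
lemma tq_dig {m x : ℕ} (hx : 2 ≤ x) (hxm : x < m) {b : Bool} {φ : Fml} {s : St} {a : ℕ}
    (ha : s.v x = .inl a)
    (h : ∀ t, Ok m t → t.v x = .inl (2 * a + if b then 2 else 1) →
      (∀ i < m, i ≠ 0 → i ≠ 1 → i ≠ x → t.v i = s.v i) → Tq m φ t) : Tq m (dig x b φ) s := by
  cases b
  · show Tq m (.all 0 (.imp (.add x x 0) (.all x (.imp (.succ 0 x) φ)))) s
    intro t1 h1 a1 hadd t2 h2 a2 hsuc
    have e1 : t1.v x = .inl a := by rw [agr_v a1 hxm (by omega)]; exact ha
    have e2 : t1.v 0 = .inl (a + a) := add_inl hadd e1 e1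
    have e3 : t2.v 0 = .inl (a + a) := by rw [agr_v a2 (by omega) (by omega)]; exact e2
    have e4 := succ_inl hsuc e3
    refine h t2 h2 ?_ fun i hi h0 h1' hix => ?_
    · rw [e4, two_mul]; rfl
    · rw [agr_v a2 hi hix, agr_v a1 hi h0]
  · show Tq m (.all 0 (.imp (.add x x 0) (.all 1 (.imp (.succ 0 1)
      (.all x (.imp (.succ 1 x) φ)))))) s
    intro t1 h1 a1 hadd t2 h2 a2 hsuc t3 h3 a3 hsuc'
    have e1 : t1.v x = .inl a := by rw [agr_v a1 hxm (by omega)]; exact ha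
    have e2 : t1.v 0 = .inl (a + a) := add_inl hadd e1 e1
    have e3 : t2.v 0 = .inl (a + a) := by rw [agr_v a2 (by omega) (by omega)]; exact e2
    have e4 := succ_inl hsuc e3
    have e5 : t3.v 1 = .inl (a + a + 1) := by rw [agr_v a3 (by omega) (by omega)]; exact e4
    have e6 := succ_inl hsuc' e5
    refine h t3 h3 ?_ fun i hi h0 h1' hix => ?_
    · rw [e6, two_mul]; rfl
    · rw [agr_v a3 hi hix, agr_v a2 hi h1', agr_v a1 hi h0]

/-- the value after reading a string -/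
lemma tq_digs {m x : ℕ} (hx : 2 ≤ x) (hxm : x < m) {φ : Fml} : ∀ (σ : List Bool) {s : St}
    {w : List Bool}, Ok m s → s.v x = .inl (num w) →
    (∀ t, Ok m t → t.v x = .inl (num (w ++ σ)) →
      (∀ i < m, i ≠ 0 → i ≠ 1 → i ≠ x → t.v i = s.v i) → Tq m φ t) →
    Tq m (σ.foldr (dig x) φ) s := by
  intro σ
  induction σ with
  | nil =>
    intro s w hs ha h
    exact h s hs (by rw [List.append_nil]; exact ha) fun _ _ _ _ _ => rfl
  | cons b σ ih =>
    intro s w hs ha h
    rw [List.foldr_cons]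
    refine tq_dig hx hxm ha fun t ht h1 h2 => ?_
    refine ih (w := w ++ [b]) ht (by rw [h1, num_snoc]) fun t' ht' h3 h4 => ?_
    refine h t' ht' ?_ fun i hi i0 i1 ix => ?_
    · rw [h3, List.append_assoc]; rfl
    · rw [h4 i hi i0 i1 ix, h2 i hi i0 i1 ix]

/-- MODULE 1c -/
theorem exQ : EXQT := by
  intro m φ hφ hv
  simp only [EX, List.mem_cons, List.not_mem_nil, or_false] at hφ
  rcases hφ with rfl | rfl | rfl | rfl | rfl | rfl | rfl | rfl | rfl | rfl | rfl
  · -- 1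
    intro s hs t1 h1 a1 t2 h2 a2 t3 h3 a3 z1 z2 z3
    have e3 := succ_inl z3 z2
    exact ⟨0, 0, 1, z1, z2, e3, rfl⟩
  · -- 2
    intro s hs t1 h1 a1 t2 h2 a2 t3 h3 a3 t4 h4 a4 t5 h5 a5 t6 h6 a6 z1 z2 z3 z4
    obtain ⟨p, q, r, w1, w2, w3, w4⟩ := z1
    have e1 := succ_inl z2 w1
    have e2 := succ_inl z4 (succ_inl z3 w3)
    refine ⟨p + 1, q, r + 1 + 1, e1, w2, e2, ?_⟩
    unfold Rrl at w4 ⊢
    omega
  · -- 3
    intro s hs t1 h1 a1 t2 h2 a2 t3 h3 a3 t4 h4 a4 t5 h5 a5 z1 z2 z3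
    obtain ⟨p, q, r, w1, w2, w3, w4⟩ := z1
    have e1 := succ_inl z2 w2
    have e2 := succ_inl z3 w3
    refine ⟨p, q + 1, r + 1, w1, e1, e2, ?_⟩
    unfold Rrl at w4 ⊢
    omega
  · -- 4
    intro s hs t1 h1 a1 t2 h2 a2 t3 h3 a3 z1 z2 t4 h4 a4 z3
    have b17 : 17 < m := hv.2.1
    have b19 : 19 < m := hv.2.2.1
    have b3 : 3 < m := by omega
    obtain ⟨p, q, r, w1, w2, w3, w4⟩ := z2
    have z1' : t3.v 15 = .inl 0 := z1
    rw [z1'] at w2
    have hq : 0 = q := Sum.inl.inj w2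
    have e17 : t4.v 17 = .inl p := by rw [agr_v a4 b17 (by omega)]; exact w1
    have e19 : t4.v 19 = .inl r := by rw [agr_v a4 b19 (by omega)]; exact w3
    have e3 : t4.v 3 = .inl p := (show t4.v 3 = t4.v 17 from z3.1).trans e17
    refine tq_dig (by omega) b3 e3 fun t5 h5 h6 h7 => ?_
    refine eqs_inl h5 b3 b19 h6 ?_
    rw [h7 19 b19 (by omega) (by omega) (by omega), e19]
    unfold Rrl at w4
    congr 1
    simp
    omega
  · -- 5
    intro s hs t1 h1 a1 t2 h2 a2 t3 h3 a3 t3' h3' a3' z1 z2 z2' t4 h4 a4 z3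
    have b17 : 17 < m := hv.2.1
    have b21 : 21 < m := hv.2.2.2.1
    have b3 : 3 < m := by omega
    obtain ⟨p, q, r, w1, w2, w3, w4⟩ := z2
    have z1' : t3'.v 15 = .inl 0 := z1
    rw [z1'] at w2
    have hq : 0 = q := Sum.inl.inj w2
    have w5 := succ_inl z2' w3
    have e17 : t4.v 17 = .inl p := by rw [agr_v a4 b17 (by omega)]; exact w1
    have e21 : t4.v 21 = .inl (r + 1) := by rw [agr_v a4 b21 (by omega)]; exact w5
    have e3 : t4.v 3 = .inl p := (show t4.v 3 = t4.v 17 from z3.1).trans e17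
    refine tq_dig (by omega) b3 e3 fun t5 h5 h6 h7 => ?_
    refine eqs_inl h5 b3 b21 h6 ?_
    rw [h7 21 b21 (by omega) (by omega) (by omega), e21]
    unfold Rrl at w4
    congr 1
    simp
    omega
  · -- 6
    intro s hs t1 h1 a1 t2 h2 a2 z1 z2 t3 h3 a3 z3
    have b15 : 15 < m := hv.1
    have b17 : 17 < m := hv.2.1
    have b2 : 2 < m := by omega
    have w1 : t2.v 15 = .inl 0 := z1
    have w2 := succ_inl z2 w1
    have w3 : t3.v 2 = .inl (num []) := z3
    refine tq_digs (by omega) b2 (pz 3) (w := []) h3 w3 fun t4 h4 h5 h6 => ?_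
    have e15 : t4.v 15 = .inl 0 := by
      rw [h6 15 b15 (by omega) (by omega) (by omega), agr_v a3 b15 (by omega)]; exact w1
    have e17 : t4.v 17 = .inl (0 + 1) := by
      rw [h6 17 b17 (by omega) (by omega) (by omega), agr_v a3 b17 (by omega)]; exact w2
    refine ⟨0, 0 + 1, num ([] ++ pz 3), e15, e17, h5, ?_, by norm_num⟩
    simp
  · -- 7
    intro s hs t1 h1 a1 t2 h2 a2 t3 h3 a3 t4 h4 a4 z1 z2 t5 h5 a5 z3
    have b15 : 15 < m := hv.1
    have b17 : 17 < m := hv.2.1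
    have b19 : 19 < m := hv.2.2.1
    have b21 : 21 < m := hv.2.2.2.1
    have b2 : 2 < m := by omega
    obtain ⟨p, q, r, w1, w2, w3, w4⟩ := z2
    obtain ⟨k, x, w, v1, v2, v3, v4, v5⟩ := z3
    have e15 : t4.v 15 = .inl k := by rw [← agr_v a5 b15 (by omega)]; exact v1
    have e19 := succ_inl z1 e15
    have e17 : t4.v 17 = .inl x := by rw [← agr_v a5 b17 (by omega)]; exact v2
    rw [e19] at w1
    rw [e17] at w2
    have hp : k + 1 = p := Sum.inl.inj w1
    have hq : x = q := Sum.inl.inj w2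
    rw [v4] at v3
    refine tq_digs (by omega) b2 (pd 3 false) h5 v3 fun t6 h6 h7 h8 => ?_
    have f19 : t6.v 19 = .inl (k + 1) := by
      rw [h8 19 b19 (by omega) (by omega) (by omega), agr_v a5 b19 (by omega)]; exact e19
    have f21 : t6.v 21 = .inl r := by
      rw [h8 21 b21 (by omega) (by omega) (by omega), agr_v a5 b21 (by omega)]; exact w3
    refine ⟨k + 1, r, _, f19, f21, h7, ?_, ?_⟩
    · rw [List.replicate_succ', List.flatten_append, List.append_assoc]
      simp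
    · unfold Rrl at w4
      rw [w4, ← hp, ← hq]
      nlinarith [v5]
  · -- 8
    intro s hs t1 h1 a1 t2 h2 a2 t3 h3 a3 z1 t4 h4 a4 z2
    have b17 : 17 < m := hv.2.1
    have b19 : 19 < m := hv.2.2.1
    obtain ⟨k, x, w, v1, v2, v3, v4, v5⟩ := z2
    have e17 : t3.v 17 = .inl x := by rw [← agr_v a4 b17 (by omega)]; exact v2
    obtain ⟨a, e1, e2⟩ := succ_pred z1 e17
    have e19 : t4.v 19 = .inl a := by rw [agr_v a4 b19 (by omega)]; exact e1
    exact ⟨k, a, w, v1, e19, v3, v4, by omega⟩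
  · -- 9
    intro s hs t1 h1 a1 t2 h2 a2 t3 h3 a3 t4 h4 a4 z1 z2
    obtain ⟨k, x, w, v1, v2, v3, v4, v5⟩ := z1
    refine ⟨w, 0, w, v3, z2, v3, ?_⟩
    unfold Krl
    rw [digits_zero, List.append_nil]
    rw [v4, digits_num]
  · -- 10
    intro s hs t1 h1 a1 t2 h2 a2 t3 h3 a3 z1
    have b15 : 15 < m := hv.1
    have b17 : 17 < m := hv.2.1
    have b2 : 2 < m := by omega
    obtain ⟨p, q, r, w1, w2, w3, w4⟩ := z1
    refine tq_dig (by omega) b17 w2 fun t4 h4 h5 h6 => ?_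
    have f2 : t4.v 2 = .inl r := by
      rw [h6 2 b2 (by omega) (by omega) (by omega)]; exact w3
    refine tq_dig (by omega) b2 f2 fun t5 h7 h8 h9 => ?_
    have g15 : t5.v 15 = .inl p := by
      rw [h9 15 b15 (by omega) (by omega) (by omega), h6 15 b15 (by omega) (by omega) (by omega)]
      exact w1
    have g17 : t5.v 17 = .inl (2 * q + if false then 2 else 1) := by
      rw [h9 17 b17 (by omega) (by omega) (by omega)]
      exact h5
    refine ⟨p, _, _, g15, g17, h8, ?_⟩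
    unfold Krl at w4 ⊢
    rw [if_neg (by simp), digits_odd, ← List.append_assoc, num_snoc, ← w4, if_neg (by simp)]
  · -- 11
    intro s hs t1 h1 a1 t2 h2 a2 t3 h3 a3 z1
    have b15 : 15 < m := hv.1
    have b17 : 17 < m := hv.2.1
    have b2 : 2 < m := by omega
    obtain ⟨p, q, r, w1, w2, w3, w4⟩ := z1
    refine tq_dig (by omega) b17 w2 fun t4 h4 h5 h6 => ?_
    have f2 : t4.v 2 = .inl r := by
      rw [h6 2 b2 (by omega) (by omega) (by omega)]; exact w3
    refine tq_dig (by omega) b2 f2 fun t5 h7 h8 h9 => ?_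
    have g15 : t5.v 15 = .inl p := by
      rw [h9 15 b15 (by omega) (by omega) (by omega), h6 15 b15 (by omega) (by omega) (by omega)]
      exact w1
    have g17 : t5.v 17 = .inl (2 * q + if true then 2 else 1) := by
      rw [h9 17 b17 (by omega) (by omega) (by omega)]
      exact h5
    refine ⟨p, _, _, g15, g17, h8, ?_⟩
    unfold Krl at w4 ⊢
    rw [if_pos rfl, digits_even, ← List.append_assoc, num_snoc, ← w4, if_pos rfl]

end Pool.Agent.J6H62.MC
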