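import Pool.Agent.J6H62.MC.Sound
import Pool.Agent.J6H48.BC.ConsT

/-!
# The axioms `WB` are pseudo-true (MODULE 1b)
-/

set_option autoImplicit false

namespace Pool.Agent.J6H62.MC

open Pool.Agent.J6H58.MC
open Pool.Agent.J6H49.BC (OpP WB U0 Tru hi)
open Pool.Agent.TH672 (Fm LogK ReplK Sw)
open Pool.Agent.TH636.BC (Fml robinson TE appn inst blk Ef Cf lt col St Ok Agr Eqs AddS MulS SuccS
  Vlt)

/-- no symbols `op i` with `i ≥ 6` -/
def Low : Fml → Prop
  | .op i _ _ _ _ => i < 6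
  | .imp φ ψ => Low φ ∧ Low ψ
  | .all _ φ => Low φ
  | _ => True

lemma opQ_low {s : St} {i a b c : ℕ} (h : i < 6) : OpQ s i a b c ↔ OpP s i a b c := by
  unfold OpQ
  split
  · omega
  · omega
  · omega
  · rfl

theorem tq_iff {m : ℕ} : ∀ {φ : Fml} {s : St}, Low φ → (Tq m φ s ↔ Tru m φ s) := by
  intro φ
  induction φ with
  | bot => intro s _; rfl
  | eq x y => intro s _; rfl
  | zero x => intro s _; rfl
  | succ x y => intro s _; rfl
  | add x y z => intro s _; rfl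
  | mul x y z => intro s _; rfl
  | op i a b c d => intro s h; exact opQ_low h
  | imp φ ψ ih ih' => intro s h; exact imp_congr (ih h.1) (ih' h.2)
  | all x φ ih =>
    intro s h
    exact forall_congr' fun t => imp_congr Iff.rfl (imp_congr Iff.rfl (ih h))

theorem low_blk {φ : Fml} (h : Low φ) : ∀ n, Low (blk^[n] φ) := by
  intro n
  induction n with
  | zero => exact h
  | succ n ih =>
    rw [Function.iterate_succ_apply']
    exact ⟨trivial, trivial, ih⟩

theorem low_inst {x n : ℕ} {φ : Fml} (h : Low φ) : Low (inst x n φ) :=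
  ⟨trivial, low_blk (φ := .all x (.imp (.eq x 0) φ)) ⟨trivial, h⟩ n⟩

theorem low_robinson : ∀ φ ∈ robinson, Low φ := by
  intro φ hφ
  simp only [robinson, List.mem_cons, List.not_mem_nil, or_false] at hφ
  rcases hφ with rfl | rfl | rfl | rfl | rfl | rfl | rfl | rfl | rfl | rfl | rfl | rfl | rfl |
    rfl | rfl <;>
  simp [Low, Fm.ex, Fm.or, Fm.neg]

theorem low_U0 : ∀ φ ∈ U0, Low φ := by
  intro φ hφ
  simp only [U0, List.mem_cons, List.not_mem_nil, or_false] at hφ
  rcases hφ with rfl | rfl | rfl | rfl | rfl | rfl <;>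
  simp [Low, Fm.ex, Fm.or, Fm.neg, Fm.and, hi, col, lt]

theorem low_appn {σ : List Bool} {ψ : Fml} (h : Low ψ) : Low (appn σ ψ) :=
  low_inst (low_inst ⟨trivial, trivial, h⟩)

theorem low_TE : ∀ φ ∈ TE, Low φ := by
  have h4 : ∀ x w, Low (Ef x w) := fun x w => by show 4 < 6; omega
  have h5 : ∀ x z w, Low (Cf x z w) := fun x z w => by show 5 < 6; omega
  intro φ hφ
  simp only [TE, List.mem_cons, List.not_mem_nil, or_false] at hφ
  rcases hφ with rfl | rfl | rfl | rfl | rfl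
  · exact ⟨trivial, low_inst (h4 _ _)⟩
  · exact ⟨h4 _ _, trivial, low_appn (h4 _ _)⟩
  · exact ⟨h4 _ _, trivial, low_appn (h5 _ _ _)⟩
  · exact ⟨h5 _ _ _, trivial, trivial, trivial, trivial, h5 _ _ _⟩
  · exact ⟨h5 _ _ _, trivial, trivial, trivial, trivial, trivial, trivial, h5 _ _ _⟩

theorem low_WB : ∀ φ ∈ WB, Low φ := by
  intro φ hφ
  rcases List.mem_append.1 hφ with hφ | hφ
  · rcases List.mem_append.1 hφ with hφ | hφ
    · exact low_robinson φ hφ
    · exact low_U0 φ hφ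
  · exact low_TE φ hφ

/-- MODULE 1b -/
theorem wbQ : WBQT := by
  intro m φ hφ hv s hs
  rw [tq_iff (low_WB φ hφ)]
  rcases List.mem_append.1 hφ with hφ | hφ
  · rcases List.mem_append.1 hφ with hφ | hφ
    · exact Pool.Agent.J6H77.BC.tr1_of_sat (Pool.Agent.J6H49.BC.transfer Pool.Agent.J6H81.BC.ext)
        Pool.Agent.J6H49.BC.exRealz hv (Pool.Agent.J6H77.BC.lw_robinson φ hφ)
        (Pool.Agent.TH197.J1545.sat_robinson φ hφ) s hs
    · exact Pool.Agent.J6H77.BC.u0 Pool.Agent.J6H81.BC.ext m φ hφ hv s hs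
  · exact Pool.Agent.J6H77.BC.tr1_of_sat (Pool.Agent.J6H49.BC.transfer Pool.Agent.J6H81.BC.ext)
      Pool.Agent.J6H49.BC.exRealz hv (Pool.Agent.J6H77.BC.lw_TE φ hφ)
      (Pool.Agent.J6H49.BC.te φ hφ) s hs

end Pool.Agent.J6H62.MC
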