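import Pool.Agent.J6H58.MC.Stm
import Pool.Agent.J6H81.BC.Sound

/-!
# The logical axioms are pseudo-true (MODULE 1a)
-/

set_option autoImplicit false

namespace Pool.Agent.J6H62.MC

open Pool.Agent.J6H58.MC
open Pool.Agent.J6H49.BC (OpP)
open Pool.Agent.TH672 (Fm LogK ReplK Sw)
open Pool.Agent.TH636.BC (Fml Step IsProof St Ok Agr Eqs AddS MulS SuccS Vlt)
open Pool.Agent.J6H81.BC (On On.symm eqs_on On.lift pull pull_ok cp ren_same ren_ne cp_ok cp_v_same
  cp_v_ne cp_c_x cp_c_ne cp_agr cp_on cp_self subst_self vlt_subst sw_v eqs_c sw_c sw_eqs agr_refl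
  right_of_not_left)

section tl

variable (m : ℕ) (s : St)

lemma tq_bot : Tq m .bot s ↔ False := Iff.rfl
lemma tq_eq (x y : ℕ) : Tq m (.eq x y) s ↔ Eqs s x y := Iff.rfl
lemma tq_zero (x : ℕ) : Tq m (.zero x) s ↔ s.v x = .inl 0 := Iff.rfl
lemma tq_succ (x y : ℕ) : Tq m (.succ x y) s ↔ SuccS s x y := Iff.rfl
lemma tq_add (x y z : ℕ) : Tq m (.add x y z) s ↔ AddS s x y z := Iff.rfl
lemma tq_mul (x y z : ℕ) : Tq m (.mul x y z) s ↔ MulS s x y z := Iff.rfl
lemma tq_op (i a b c d : ℕ) : Tq m (.op i a b c d) s ↔ OpQ s i a b c := Iff.rfl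
lemma tq_imp (φ ψ : Fml) : Tq m (.imp φ ψ) s ↔ (Tq m φ s → Tq m ψ s) := Iff.rfl
lemma tq_all (x : ℕ) (φ : Fml) :
    Tq m (.all x φ) s ↔ ∀ t, Ok m t → Agr m x s t → Tq m φ t := Iff.rfl
lemma tq_neg (φ : Fml) : Tq m (.neg φ) s ↔ ¬ Tq m φ s := Iff.rfl

end tl

theorem tq_on {m : ℕ} : ∀ {φ : Fml} {G : ℕ → Prop} {s t : St}, Vlt m φ →
    (∀ x, φ.Free x → G x) → Ok m s → Ok m t → On m G s t → (Tq m φ s ↔ Tq m φ t) := by
  intro φ
  induction φ with
  | bot => intro G s t _ _ _ _ _; rfl
  | eq x y =>
    intro G s t hv hg _ _ h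
    exact eqs_on h hv.1 hv.2 (hg x (Or.inl rfl)) (hg y (Or.inr rfl))
  | zero x =>
    intro G s t hv hg _ _ h
    rw [tq_zero, tq_zero, h.1 x hv (hg x rfl)]
  | succ x y =>
    intro G s t hv hg _ _ h
    have gx := hg x (Or.inl rfl)
    have gy := hg y (Or.inr rfl)
    rw [tq_succ, tq_succ]
    unfold SuccS
    rw [h.1 x hv.1 gx, h.1 y hv.2 gy]
    split
    · rfl
    · exact eqs_on h hv.1 hv.2 gx gy
  | add x y z =>
    intro G s t hv hg _ _ h
    have gx := hg x (Or.inl rfl)
    have gy := hg y (Or.inr (Or.inl rfl))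
    have gz := hg z (Or.inr (Or.inr rfl))
    rw [tq_add, tq_add]
    unfold AddS
    rw [h.1 x hv.1 gx, h.1 y hv.2.1 gy, h.1 z hv.2.2 gz]
    split
    · rfl
    · exact eqs_on h hv.1 hv.2.2 gx gz
    · exact eqs_on h hv.2.1 hv.2.2 gy gz
  | mul x y z =>
    intro G s t hv hg _ _ h
    have gx := hg x (Or.inl rfl)
    have gy := hg y (Or.inr (Or.inl rfl))
    have gz := hg z (Or.inr (Or.inr rfl))
    rw [tq_mul, tq_mul]
    unfold MulS
    rw [h.1 x hv.1 gx, h.1 y hv.2.1 gy, h.1 z hv.2.2 gz]
    split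
    · rfl
    · split_ifs
      · rfl
      · exact eqs_on h hv.1 hv.2.2 gx gz
    · exact eqs_on h hv.2.1 hv.2.2 gy gz
    · exact eqs_on h hv.1 hv.2.2 gx gz
  | op i a b c d =>
    intro G s t hv hg _ _ h
    have ga := hg a (Or.inl rfl)
    have gb := hg b (Or.inr (Or.inl rfl))
    have gc := hg c (Or.inr (Or.inr (Or.inl rfl)))
    rw [tq_op, tq_op]
    unfold OpQ OpP
    rw [h.1 a hv.1 ga, h.1 b hv.2.1 gb, h.1 c hv.2.2.1 gc, h.2 a hv.1 b hv.2.1 ga gb]
  | imp φ ψ ih ih' =>
    intro G s t hv hg hs ht h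
    rw [tq_imp, tq_imp, ih hv.1 (fun x hx => hg x (Or.inl hx)) hs ht h,
      ih' hv.2 (fun x hx => hg x (Or.inr hx)) hs ht h]
  | all u φ ih =>
    have key : ∀ {G : ℕ → Prop} {s t : St}, Vlt m (.all u φ) → (∀ x, (Fm.all u φ).Free x → G x) →
        Ok m s → Ok m t → On m G s t → Tq m (.all u φ) s → Tq m (.all u φ) t := by
      intro G s t hv hg hs ht h h1 t' ht' ha
      obtain ⟨s', h2, h3, h4⟩ := h.lift hs hv.1 ht' ha
      refine (ih hv.2 (fun x hx => ?_) h2 ht' h4).1 (h1 s' h2 h3)
      by_cases hxu : x = u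
      · exact Or.inr hxu
      · exact Or.inl (hg x ⟨hxu, hx⟩)
    intro G s t hv hg hs ht h
    exact ⟨key hv hg hs ht h, key hv hg ht hs h.symm⟩

theorem tq_subst {m : ℕ} {x y : ℕ} (hx : x < m) (hy : y < m) (hxy : x ≠ y) :
    ∀ {φ : Fml} {s : St}, Vlt m φ → φ.FreeFor y x → Ok m s →
      (Tq m (φ.subst x y) s ↔ Tq m φ (cp s x y)) := by
  intro φ
  induction φ with
  | bot => intro s _ _ _; rfl
  | eq u w => intro s _ _ _; rfl
  | zero u => intro s _ _ _; rfl
  | succ u w => intro s _ _ _; rfl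
  | add u w z => intro s _ _ _; rfl
  | mul u w z => intro s _ _ _; rfl
  | op i a b c d => intro s _ _ _; rfl
  | imp φ ψ ih ih' =>
    intro s hv h hs
    change (_ → _) ↔ (_ → _)
    rw [ih hv.1 h.1 hs, ih' hv.2 h.2 hs]
  | all u φ ih =>
    intro s hv h hs
    by_cases hu : u = x
    · subst hu
      have e1 : (Fm.all u φ).subst u y = Fm.all u φ := by simp only [Fm.subst, if_true]
      rw [e1]
      refine tq_on (G := fun i => (Fm.all u φ).Free i) hv (fun _ h => h) hs (cp_ok hs u hy) ?_
      exact cp_on m s u y fun h => h.1 rfl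
    · rcases h with h | h | h
      · exact absurd h hu
      · have e1 : (Fm.all u φ).subst x y = Fm.all u φ := by
          simp only [Fm.subst, if_neg hu, Pool.Agent.TH197.J1545.subst_id h]
        rw [e1]
        refine tq_on (G := fun i => (Fm.all u φ).Free i) hv (fun _ h => h) hs (cp_ok hs x hy) ?_
        exact cp_on m s x y fun h' => h h'.2
      · obtain ⟨huy, hf⟩ := h
        have e1 : (Fm.all u φ).subst x y = Fm.all u (φ.subst x y) := by
          simp only [Fm.subst, if_neg hu]
        rw [e1]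
        have hux : x ≠ u := fun e => hu e.symm
        constructor
        · intro h1 t' ht' ha
          -- the agreement of `s` and `t'` off `u` and `x`
          have hon : On m (fun i => i ≠ x) s (cp s x y) :=
            ⟨fun _ _ h => (cp_v_ne s y h).symm,
             fun _ _ _ _ hi hj => (cp_c_ne s y hi hj).symm⟩
          obtain ⟨t, h2, h3, h4⟩ := hon.lift hs hv.1 ht' ha
          have h5 := (ih hv.2 hf h2).1 (h1 t h2 h3)
          refine (tq_on (G := fun _ => True) hv.2 (fun _ _ => trivial) (cp_ok h2 x hy) ht' ?_).1 h5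
          have gy : y ≠ x ∨ y = u := Or.inl (Ne.symm hxy)
          have vx : t.v y = t'.v x := by
            rw [← h3.1 y hy (Ne.symm huy), ← cp_v_same s x y]
            exact ha.1 x hx hux
          have cx0 : t'.c x y = 0 := by
            rw [← ha.2 x hx y hy hux (Ne.symm huy), cp_c_x s y (Ne.symm hxy)]
            exact hs.refl y hy
          have vy : t'.v y = t'.v x := by
            rw [← vx]
            exact (h4.1 y hy gy).symm
          have cx : ∀ j < m, t'.c y j = t'.c x j := by
            intro j hj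
            by_cases hl : (t'.v x).isLeft
            · rw [ht'.norm x hx j hj (Or.inl hl), ht'.norm y hy j hj (Or.inl (vy ▸ hl))]
            · have hr := right_of_not_left hl
              exact (ht'.cong x hx y hy j hj hr (vy ▸ hr) cx0).symm
          refine ⟨?_, ?_⟩
          · intro i hi _
            by_cases hix : i = x
            · subst hix
              rw [cp_v_same]
              exact vx
            · rw [cp_v_ne t y hix]
              exact h4.1 i hi (Or.inl hix)
          · have cj : ∀ j < m, (cp t x y).c x j = t'.c x j := by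
              intro j hj
              by_cases hjx : j = x
              · subst hjx
                rw [(cp_ok h2 j hy).refl j hj, ht'.refl j hj]
              · rw [cp_c_x t y hjx, h4.2 y hy j hj gy (Or.inl hjx)]
                exact cx j hj
            intro i hi j hj _ _
            by_cases hix : i = x
            · rw [hix]
              exact cj j hj
            · by_cases hjx : j = x
              · rw [hjx, (cp_ok h2 x hy).symm i hi x hx, ht'.symm i hi x hx]
                exact cj i hi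
              · rw [cp_c_ne t y hix hjx]
                exact h4.2 i hi j hj (Or.inl hix) (Or.inl hjx)
        · intro h1 t ht ha
          refine (ih hv.2 hf ht).2 (h1 (cp t x y) (cp_ok ht x hy) ⟨?_, ?_⟩)
          · intro i hi hiu
            change s.v _ = t.v _
            refine ha.1 _ ?_ ?_
            · unfold Pool.Agent.TH672.Form.ren
              split_ifs <;> omega
            · unfold Pool.Agent.TH672.Form.ren
              split_ifs
              · exact Ne.symm huy
              · exact hiu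
          · intro i hi j hj hiu hju
            change s.c _ _ = t.c _ _
            refine ha.2 _ ?_ _ ?_ ?_ ?_
            · unfold Pool.Agent.TH672.Form.ren
              split_ifs <;> omega
            · unfold Pool.Agent.TH672.Form.ren
              split_ifs <;> omega
            · unfold Pool.Agent.TH672.Form.ren
              split_ifs
              · exact Ne.symm huy
              · exact hiu
            · unfold Pool.Agent.TH672.Form.ren
              split_ifs
              · exact Ne.symm huy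
              · exact hju

theorem tq_repl {m : ℕ} {s : St} (hs : Ok m s) {x y : ℕ} (hx : x < m) (hy : y < m)
    (h : Eqs s x y) {φ ψ : Fml} (hr : ReplK x y φ ψ) (hv : Vlt m φ) :
    Tq m φ s → Tq m ψ s := by
  cases hr with
  | eq h1 h2 =>
    intro h0
    exact (sw_eqs hs hx hy h h1 h2 hv.1 hv.2).2 h0
  | zero h1 =>
    intro h0
    rw [tq_zero] at h0 ⊢
    rw [sw_v h h1, h0]
  | succ h1 h2 =>
    intro h0
    rw [tq_succ] at h0 ⊢
    unfold SuccS at h0 ⊢
    rw [sw_v h h1, sw_v h h2, sw_eqs hs hx hy h h1 h2 hv.1 hv.2]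
    exact h0
  | add h1 h2 h3 =>
    intro h0
    rw [tq_add] at h0 ⊢
    unfold AddS at h0 ⊢
    rw [sw_v h h1, sw_v h h2, sw_v h h3,
      sw_eqs hs hx hy h h1 h3 hv.1 hv.2.2, sw_eqs hs hx hy h h2 h3 hv.2.1 hv.2.2]
    exact h0
  | mul h1 h2 h3 =>
    intro h0
    rw [tq_mul] at h0 ⊢
    unfold MulS at h0 ⊢
    rw [sw_v h h1, sw_v h h2, sw_v h h3,
      sw_eqs hs hx hy h h1 h3 hv.1 hv.2.2, sw_eqs hs hx hy h h2 h3 hv.2.1 hv.2.2]
    exact h0
  | op h1 h2 h3 h4 =>
    intro h0
    rw [tq_op] at h0 ⊢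
    unfold OpQ OpP at h0 ⊢
    rw [sw_v h h1, sw_v h h2, sw_v h h3,
      sw_c hs hx hy h h1 h2 hv.1 hv.2.1]
    exact h0

theorem tq_log {m : ℕ} {φ : Fml} (h : LogK φ) (hv : Vlt m φ) {s : St} (hs : Ok m s) :
    Tq m φ s := by
  cases h with
  | k φ ψ => intro h _; exact h
  | s φ ψ χ => intro h h' h''; exact h h'' (h' h'')
  | dn φ => intro h; by_contra h'; exact h h'
  | inst x y φ hf =>
    intro h
    obtain ⟨⟨hx, hv1⟩, hv2⟩ := hv
    by_cases hfr : φ.Free x
    · have hy := vlt_subst hfr hv2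
      by_cases hxy : x = y
      · subst hxy
        rw [subst_self]
        exact h s hs (agr_refl m x s)
      · exact (tq_subst hx hy hxy hv1 hf hs).2 (h (cp s x y) (cp_ok hs x hy) (cp_agr m s x y))
    · rw [Pool.Agent.TH197.J1545.subst_id hfr]
      exact h s hs (agr_refl m x s)
  | dist x φ ψ hf =>
    intro h h' t ht ha
    obtain ⟨⟨hx, hv1, hv2⟩, -⟩ := hv
    refine h t ht ha ((tq_on (G := fun i => i ≠ x) hv1 ?_ hs ht ⟨ha.1, ?_⟩).1 h')
    · rintro i hi rfl
      exact hf hi
    · intro i hi j hj gi gj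
      exact ha.2 i hi j hj gi gj
  | refl x => exact ⟨rfl, hs.refl x hv.1⟩
  | repl x y φ ψ hr =>
    intro e h
    exact tq_repl hs hv.1.1 hv.1.2 e hr hv.2.1 h

/-- MODULE 1a -/
theorem logQ : LogQT := fun _ _ h hv _ hs => tq_log h hv hs

end Pool.Agent.J6H62.MC
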